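import Pool.Agent.T2h10.E25.Main

/-!
# MP_e25200_co: no additive cube-free rich word over a set of three integers

Every infinite rich word over a set `A` of at most three integers contains an additive cube. More strongly there is an
`N` such that every finite rich word of length at least `N` over any alphabet of at most three letters has an abelian
cube `x y z` (`y` and `z` are permutations of the word `x`) as a factor.

Proof. A rich word of length `n` has `n + 1` palindromic factors, so that a long rich word contains a long palindrome,
and then all the central factors of this palindrome. The tree of the rich palindromes over three letters without an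
abelian cube (`a w a` is a child of `w`) is finite: it has 31,633 vertices, 5,300 up to a renaming of the letters, and
depth 89. The tree is checked in the kernel with a certificate: for each palindrome outside the tree whose parent is
in the tree, an abelian cube at its start, or a second occurrence of the longest palindromic suffix of `w a`.
-/

set_option autoImplicit false

namespace Pool.Agent.Results.MP_e25200_co.ThreeLetters

open Pool.Agent.T2h10.E25

/-- The factor `u i, …, u (i + n - 1)` of an infinite word. -/
def factor {α : Type} (u : ℕ → α) (i n : ℕ) : List α := (List.range n).map fun j => u (i + j)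

/-- An infinite word is rich if all its finite factors are rich. -/
def RichInf {α : Type} (u : ℕ → α) : Prop := ∀ i n, Rich (factor u i n)

/-- An additive cube: three blocks of the same positive length and the same sum. -/
def IsAdditiveCube (w : List ℤ) : Prop :=
  ∃ x y z : List ℤ, w = x ++ y ++ z ∧ x ≠ [] ∧ x.length = y.length ∧ y.length = z.length ∧
    x.sum = y.sum ∧ y.sum = z.sum

theorem infix_factor {α : Type} {u : ℕ → α} {n : ℕ} {v : List α} (h : v <:+: factor u 0 n) :
    ∃ i, v = factor u i v.length := by
  obtain ⟨s, t, hst⟩ := h
  refine ⟨s.length, List.ext_getElem (by simp [factor]) ?_⟩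
  intro k h1 h2
  have hl : (s ++ v ++ t).length = n := by rw [hst]; simp [factor]
  have h3 : (s ++ v ++ t)[s.length + k]? = v[k]? := by
    rw [List.append_assoc, List.getElem?_append_right (by omega), Nat.add_sub_cancel_left,
      List.getElem?_append_left h1]
  rw [hst, List.getElem?_eq_getElem h1] at h3
  have h4 : s.length + k < n := by
    simp only [List.length_append] at hl
    omega
  have h5 : (factor u 0 n)[s.length + k]? = some (u (s.length + k)) := by
    simp [factor, h4]
  rw [h5] at h3
  have h6 := Option.some.inj h3
  simp [factor, h6]

/-- **Theorem.** (1) Every rich word of length at least some `N` over an alphabet of at most three letters has an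
abelian cube as a factor. (2) No infinite rich word over a set of at most three integers is additive cube-free. -/
theorem result :
    (∃ N : ℕ, ∀ (α : Type) (A : Finset α), A.card ≤ 3 → ∀ w : List α, (∀ a ∈ w, a ∈ A) → Rich w → N ≤ w.length →
      ∃ x y z : List α, x ≠ [] ∧ x ++ y ++ z <:+: w ∧ x.Perm y ∧ y.Perm z) ∧
    ∀ A : Finset ℤ, A.card ≤ 3 → ∀ u : ℕ → ℤ, (∀ i, u i ∈ A) → RichInf u →
      ∃ i n, IsAdditiveCube (factor u i n) := by
  refine ⟨abelian_cube, fun A hA u hu hr => ?_⟩
  obtain ⟨N, HN⟩ := abelian_cube
  obtain ⟨x, y, z, hx, hinf, hxy, hyz⟩ := HN ℤ A hA (factor u 0 N) (by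
    intro a ha
    obtain ⟨j, _, rfl⟩ := List.mem_map.1 ha
    exact hu _) (hr 0 N) (by simp [factor])
  obtain ⟨i, hi⟩ := infix_factor hinf
  exact ⟨i, (x ++ y ++ z).length, x, y, z, hi.symm, hx, hxy.length_eq, hyz.length_eq, hxy.sum_eq, hyz.sum_eq⟩

end Pool.Agent.Results.MP_e25200_co.ThreeLetters
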